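import Pool.Agent.R30.Hex.Final

set_option autoImplicit false

/-! An optimal 3-plane graph with 14 vertices and 66 edges whose edges cannot be partitioned into a
2-plane graph and a forest. -/

namespace Pool.Agent.Results.MP_d99f1b_co.NoForestPartition

open Pool.Agent.R30.Hex

theorem result : ∃ (V E : Type) (_ : Fintype V) (_ : Fintype E) (G : TopGraph V E),
    Fintype.card V = 14 ∧ G.IsOptimal3Plane ∧
    ∀ E₁ E₂ : Set E, E₁ ∪ E₂ = Set.univ → Disjoint E₁ E₂ →
      G.IsPlane 2 E₁ → ¬ G.IsForest E₂ :=
  main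

end Pool.Agent.Results.MP_d99f1b_co.NoForestPartition
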